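import Mathlib

/-!
Limit theorem for the exact Cardy formula in the slit strip (MP_35f495_pr).
If `f u v + f v u = 1` and `f (u+1) v - f u (v+1) = D u v` with the explicit product `D`, then
`f u v → (∫_0^a (t(1-t))^(-2/3)) / (∫_0^1 (t(1-t))^(-2/3))` when `u + v → ∞`, `u/(u+v) → a`.
-/

namespace Pool.Agent.Helper25.Cardy
open Filter Topology MeasureTheory Set
open scoped Interval

/-- rising factorial -/
noncomputable def rf (x : ℝ) (k : ℕ) : ℝ := ∏ i ∈ Finset.range k, (x + i)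

theorem rf_pos {x : ℝ} (hx : 0 < x) (k : ℕ) : 0 < rf x k :=
  Finset.prod_pos fun i _ => by positivity

theorem rf_succ (x : ℝ) (k : ℕ) : rf x (k + 1) = rf x k * (x + k) := Finset.prod_range_succ _ _

theorem ratio_lim {x : ℝ} (y : ℝ) (hx : 0 < x) :
    Tendsto (fun n : ℕ => (y + n) / (x + n)) atTop (𝓝 1) := by
  have h : Tendsto (fun n : ℕ => 1 + (y - x) / (x + n)) atTop (𝓝 (1 + 0)) := by
    refine tendsto_const_nhds.add ?_
    refine Tendsto.div_atTop tendsto_const_nhds ?_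
    exact tendsto_atTop_add_const_left _ _ tendsto_natCast_atTop_atTop
  rw [add_zero] at h
  refine h.congr fun n => ?_
  have : (0 : ℝ) < x + n := by positivity
  field_simp
  ring

theorem rf_lim {x y : ℝ} (hx : 0 < x) (hy : 0 < y) :
    Tendsto (fun n : ℕ => (n : ℝ) ^ (y - x) * (rf x n / rf y n)) atTop
      (𝓝 (Real.Gamma y / Real.Gamma x)) := by
  have h1 := (Real.GammaSeq_tendsto_Gamma y).div (Real.GammaSeq_tendsto_Gamma x)
    (Real.Gamma_pos_of_pos hx).ne'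
  have h2 := h1.mul (ratio_lim y hx)
  rw [mul_one] at h2
  refine h2.congr' ?_
  filter_upwards [eventually_gt_atTop 0] with n hn
  have hn' : (0 : ℝ) < n := by exact_mod_cast hn
  have e1 : ∏ j ∈ Finset.range (n + 1), (y + (j : ℝ)) = rf y n * (y + n) := Finset.prod_range_succ _ _
  have e2 : ∏ j ∈ Finset.range (n + 1), (x + (j : ℝ)) = rf x n * (x + n) := Finset.prod_range_succ _ _
  simp only [Pi.div_apply]
  unfold Real.GammaSeq
  rw [e1, e2, Real.rpow_sub hn']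
  have a1 := rf_pos hx n
  have a2 := rf_pos hy n
  have a3 : (0 : ℝ) < x + n := by positivity
  have a4 : (0 : ℝ) < y + n := by positivity
  have a5 : (0 : ℝ) < (n : ℝ) ^ x := Real.rpow_pos_of_pos hn' _
  have a6 : (0 : ℝ) < (n : ℝ) ^ y := Real.rpow_pos_of_pos hn' _
  have a7 : (0 : ℝ) < (n.factorial : ℝ) := by exact_mod_cast n.factorial_pos
  field_simp

theorem rf_lim' {x y : ℝ} (hx : 0 < x) (hy : 0 < y) :
    Tendsto (fun n : ℕ => ((n : ℝ) + 1) ^ (y - x) * (rf x n / rf y n)) atTop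
      (𝓝 (Real.Gamma y / Real.Gamma x)) := by
  have h1 := (rf_lim hx hy).comp (tendsto_add_atTop_nat 1)
  have h2 := h1.mul (ratio_lim y hx)
  rw [mul_one] at h2
  refine h2.congr fun n => ?_
  simp only [Function.comp_apply]
  rw [rf_succ, rf_succ]
  have a1 := rf_pos hx n
  have a2 := rf_pos hy n
  have a3 : (0 : ℝ) < x + n := by positivity
  have a4 : (0 : ℝ) < y + n := by positivity
  push_cast
  field_simp

theorem rf_bound {x y : ℝ} (hx : 0 < x) (hy : 0 < y) :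
    ∃ K : ℝ, 0 < K ∧ ∀ n : ℕ, rf x n / rf y n ≤ K * ((n : ℝ) + 1) ^ (x - y) := by
  obtain ⟨K, hK⟩ := (rf_lim' hx hy).bddAbove_range
  refine ⟨max K 1, lt_max_of_lt_right one_pos, fun n => ?_⟩
  have h1 : ((n : ℝ) + 1) ^ (y - x) * (rf x n / rf y n) ≤ K := hK ⟨n, rfl⟩
  have hn : (0 : ℝ) < (n : ℝ) + 1 := by positivity
  have h2 : (0 : ℝ) < ((n : ℝ) + 1) ^ (x - y) := Real.rpow_pos_of_pos hn _
  have h3 : ((n : ℝ) + 1) ^ (x - y) * ((n : ℝ) + 1) ^ (y - x) = 1 := by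
    rw [← Real.rpow_add hn]
    simp
  calc rf x n / rf y n = (((n : ℝ) + 1) ^ (x - y) * ((n : ℝ) + 1) ^ (y - x)) * (rf x n / rf y n) := by
        rw [h3, one_mul]
    _ = ((n : ℝ) + 1) ^ (y - x) * (rf x n / rf y n) * ((n : ℝ) + 1) ^ (x - y) := by ring
    _ ≤ K * ((n : ℝ) + 1) ^ (x - y) := mul_le_mul_of_nonneg_right h1 h2.le
    _ ≤ max K 1 * ((n : ℝ) + 1) ^ (x - y) := mul_le_mul_of_nonneg_right (le_max_left _ _) h2.le

/-- the exact increment of the crossing probability -/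
noncomputable def D (u v : ℕ) : ℝ :=
  2 / 231 * (12 * u * v + 16 * u + 16 * v + 21) *
    (rf (7 / 3) (2 * u) * rf (7 / 3) (2 * v) * rf 6 (2 * u + 2 * v)) /
    (rf 4 (2 * u) * rf 4 (2 * v) * rf (17 / 3) (2 * u + 2 * v))

theorem D_eq (u v : ℕ) : D u v = 2 / 231 * (12 * u * v + 16 * u + 16 * v + 21) *
    ((rf (7 / 3) (2 * u) / rf 4 (2 * u)) * (rf (7 / 3) (2 * v) / rf 4 (2 * v)) *
      (rf 6 (2 * u + 2 * v) / rf (17 / 3) (2 * u + 2 * v))) := by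
  unfold D
  have a1 := rf_pos (show (0 : ℝ) < 4 by norm_num) (2 * u)
  have a2 := rf_pos (show (0 : ℝ) < 4 by norm_num) (2 * v)
  have a3 := rf_pos (show (0 : ℝ) < 17 / 3 by norm_num) (2 * u + 2 * v)
  field_simp

theorem D_nonneg (u v : ℕ) : 0 ≤ D u v := by
  rw [D_eq]
  have a1 := rf_pos (show (0 : ℝ) < 4 by norm_num) (2 * u)
  have a2 := rf_pos (show (0 : ℝ) < 4 by norm_num) (2 * v)
  have a3 := rf_pos (show (0 : ℝ) < 17 / 3 by norm_num) (2 * u + 2 * v)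
  have a4 := rf_pos (show (0 : ℝ) < 7 / 3 by norm_num) (2 * u)
  have a5 := rf_pos (show (0 : ℝ) < 7 / 3 by norm_num) (2 * v)
  have a6 := rf_pos (show (0 : ℝ) < 6 by norm_num) (2 * u + 2 * v)
  positivity

theorem D_bound : ∃ K : ℝ, 0 < K ∧ ∀ u v : ℕ, D u v ≤
    K * (((u : ℝ) + 1) ^ (-(2 / 3) : ℝ) * ((v : ℝ) + 1) ^ (-(2 / 3) : ℝ) * ((u : ℝ) + v + 1) ^ (1 / 3 : ℝ)) := by
  obtain ⟨K, hK, h1⟩ := rf_bound (show (0 : ℝ) < 7 / 3 by norm_num) (show (0 : ℝ) < 4 by norm_num)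
  obtain ⟨K', hK', h2⟩ := rf_bound (show (0 : ℝ) < 6 by norm_num) (show (0 : ℝ) < 17 / 3 by norm_num)
  refine ⟨2 / 231 * 21 * (K * K * (K' * 2)), by positivity, fun u v => ?_⟩
  have aux : ∀ w : ℕ, rf (7 / 3) (2 * w) / rf 4 (2 * w) ≤ K * ((w : ℝ) + 1) ^ (-(5 / 3) : ℝ) := by
    intro w
    refine (h1 (2 * w)).trans ?_
    refine mul_le_mul_of_nonneg_left ?_ hK.le
    push_cast
    rw [show (7 / 3 - 4 : ℝ) = -(5 / 3) by norm_num]
    exact Real.rpow_le_rpow_of_nonpos (by positivity) (by linarith [show (0 : ℝ) ≤ w from Nat.cast_nonneg w])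
      (by norm_num)
  have aux2 : rf 6 (2 * u + 2 * v) / rf (17 / 3) (2 * u + 2 * v) ≤ K' * 2 * ((u : ℝ) + v + 1) ^ (1 / 3 : ℝ) := by
    refine (h2 (2 * u + 2 * v)).trans ?_
    rw [mul_assoc]
    refine mul_le_mul_of_nonneg_left ?_ hK'.le
    push_cast
    rw [show (6 - 17 / 3 : ℝ) = 1 / 3 by norm_num]
    have hu : (0 : ℝ) ≤ u := Nat.cast_nonneg u
    have hv : (0 : ℝ) ≤ v := Nat.cast_nonneg v
    calc (2 * (u : ℝ) + 2 * v + 1) ^ (1 / 3 : ℝ) ≤ (2 * ((u : ℝ) + v + 1)) ^ (1 / 3 : ℝ) :=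
          Real.rpow_le_rpow (by positivity) (by linarith) (by norm_num)
      _ = 2 ^ (1 / 3 : ℝ) * ((u : ℝ) + v + 1) ^ (1 / 3 : ℝ) := Real.mul_rpow (by norm_num) (by positivity)
      _ ≤ 2 * ((u : ℝ) + v + 1) ^ (1 / 3 : ℝ) := by
          refine mul_le_mul_of_nonneg_right ?_ (Real.rpow_nonneg (by positivity) _)
          calc (2 : ℝ) ^ (1 / 3 : ℝ) ≤ 2 ^ (1 : ℝ) :=
                Real.rpow_le_rpow_of_exponent_le (by norm_num) (by norm_num)
            _ = 2 := Real.rpow_one 2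
  have a1 := rf_pos (show (0 : ℝ) < 4 by norm_num) (2 * u)
  have a2 := rf_pos (show (0 : ℝ) < 4 by norm_num) (2 * v)
  have a3 := rf_pos (show (0 : ℝ) < 17 / 3 by norm_num) (2 * u + 2 * v)
  have a4 := rf_pos (show (0 : ℝ) < 7 / 3 by norm_num) (2 * u)
  have a5 := rf_pos (show (0 : ℝ) < 7 / 3 by norm_num) (2 * v)
  have a6 := rf_pos (show (0 : ℝ) < 6 by norm_num) (2 * u + 2 * v)
  have hu : (0 : ℝ) ≤ u := Nat.cast_nonneg u
  have hv : (0 : ℝ) ≤ v := Nat.cast_nonneg v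
  have e3 : ∀ w : ℝ, 0 ≤ w → (w + 1) * (w + 1) ^ (-(5 / 3) : ℝ) = (w + 1) ^ (-(2 / 3) : ℝ) := by
    intro w hw
    have hw' : (0 : ℝ) < w + 1 := by linarith
    nth_rw 1 [← Real.rpow_one (w + 1)]
    rw [← Real.rpow_add hw']
    norm_num
  rw [D_eq]
  have b1 := Real.rpow_nonneg (show (0 : ℝ) ≤ (u : ℝ) + 1 by positivity) (-(5 / 3) : ℝ)
  have b2 := Real.rpow_nonneg (show (0 : ℝ) ≤ (v : ℝ) + 1 by positivity) (-(5 / 3) : ℝ)
  have b3 := Real.rpow_nonneg (show (0 : ℝ) ≤ (u : ℝ) + v + 1 by positivity) (1 / 3 : ℝ)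
  calc 2 / 231 * (12 * (u : ℝ) * v + 16 * u + 16 * v + 21) *
        ((rf (7 / 3) (2 * u) / rf 4 (2 * u)) * (rf (7 / 3) (2 * v) / rf 4 (2 * v)) *
          (rf 6 (2 * u + 2 * v) / rf (17 / 3) (2 * u + 2 * v)))
      ≤ 2 / 231 * (21 * ((u + 1) * (v + 1))) *
        ((K * ((u : ℝ) + 1) ^ (-(5 / 3) : ℝ)) * (K * ((v : ℝ) + 1) ^ (-(5 / 3) : ℝ)) *
          (K' * 2 * ((u : ℝ) + v + 1) ^ (1 / 3 : ℝ))) := by
        have c1 : 12 * (u : ℝ) * v + 16 * u + 16 * v + 21 ≤ 21 * ((u + 1) * (v + 1)) := by nlinarith [mul_nonneg hu hv]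
        have c2 : rf (7 / 3) (2 * u) / rf 4 (2 * u) * (rf (7 / 3) (2 * v) / rf 4 (2 * v)) ≤
            (K * ((u : ℝ) + 1) ^ (-(5 / 3) : ℝ)) * (K * ((v : ℝ) + 1) ^ (-(5 / 3) : ℝ)) :=
          mul_le_mul (aux u) (aux v) (by positivity) (by positivity)
        have c3 : rf (7 / 3) (2 * u) / rf 4 (2 * u) * (rf (7 / 3) (2 * v) / rf 4 (2 * v)) *
            (rf 6 (2 * u + 2 * v) / rf (17 / 3) (2 * u + 2 * v)) ≤
            (K * ((u : ℝ) + 1) ^ (-(5 / 3) : ℝ)) * (K * ((v : ℝ) + 1) ^ (-(5 / 3) : ℝ)) *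
              (K' * 2 * ((u : ℝ) + v + 1) ^ (1 / 3 : ℝ)) :=
          mul_le_mul c2 aux2 (by positivity) (by positivity)
        refine mul_le_mul ?_ c3 (by positivity) (by positivity)
        exact mul_le_mul_of_nonneg_left c1 (by norm_num)
    _ = 2 / 231 * 21 * (K * K * (K' * 2)) * ((((u : ℝ) + 1) * ((u : ℝ) + 1) ^ (-(5 / 3) : ℝ)) *
          (((v : ℝ) + 1) * ((v : ℝ) + 1) ^ (-(5 / 3) : ℝ)) * ((u : ℝ) + v + 1) ^ (1 / 3 : ℝ)) := by ring
    _ = _ := by rw [e3 u hu, e3 v hv]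


/-- the constant of the density -/
noncomputable def C0 : ℝ := 2 / 231 * 12 * ((Real.Gamma 4 / Real.Gamma (7 / 3)) ^ 2 *
  (Real.Gamma (17 / 3) / Real.Gamma 6)) / 8

theorem tendsto_of_ratio {U : ℕ → ℕ} {t : ℝ} (ht : 0 < t)
    (hU : Tendsto (fun N : ℕ => (U N : ℝ) / N) atTop (𝓝 t)) : Tendsto U atTop atTop := by
  have h : Tendsto (fun N : ℕ => (U N : ℝ) / N * N) atTop atTop :=
    hU.pos_mul_atTop ht tendsto_natCast_atTop_atTop
  have h2 : Tendsto (fun N : ℕ => (U N : ℝ)) atTop atTop := by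
    refine h.congr' ?_
    filter_upwards [eventually_gt_atTop 0] with N hN
    have : (0 : ℝ) < N := by exact_mod_cast hN
    field_simp
  exact tendsto_natCast_atTop_iff.1 h2

theorem D_lim {U V : ℕ → ℕ} {t s : ℝ} (ht : 0 < t) (hs : 0 < s) (hts : t + s = 1)
    (hU : Tendsto (fun N : ℕ => (U N : ℝ) / N) atTop (𝓝 t))
    (hV : Tendsto (fun N : ℕ => (V N : ℝ) / N) atTop (𝓝 s)) :
    Tendsto (fun N : ℕ => (N : ℝ) * D (U N) (V N)) atTop (𝓝 (C0 * (t * s) ^ (-(2 / 3) : ℝ))) := by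
  have hU' := tendsto_of_ratio ht hU
  have hV' := tendsto_of_ratio hs hV
  set p : ℕ → ℝ := fun n => (n : ℝ) ^ (5 / 3 : ℝ) * (rf (7 / 3) n / rf 4 n) with hp
  set p' : ℕ → ℝ := fun n => (n : ℝ) ^ (-(1 / 3) : ℝ) * (rf 6 n / rf (17 / 3) n) with hp'
  have lp : Tendsto p atTop (𝓝 (Real.Gamma 4 / Real.Gamma (7 / 3))) := by
    have := rf_lim (show (0 : ℝ) < 7 / 3 by norm_num) (show (0 : ℝ) < 4 by norm_num)
    rw [show (4 - 7 / 3 : ℝ) = 5 / 3 by norm_num] at this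
    exact this
  have lp' : Tendsto p' atTop (𝓝 (Real.Gamma (17 / 3) / Real.Gamma 6)) := by
    have := rf_lim (show (0 : ℝ) < 6 by norm_num) (show (0 : ℝ) < 17 / 3 by norm_num)
    rw [show (17 / 3 - 6 : ℝ) = -(1 / 3) by norm_num] at this
    exact this
  have l2 : Tendsto (fun n : ℕ => 2 * n) atTop atTop := tendsto_id.const_mul_atTop' (by norm_num)
  have lU : Tendsto (fun N => p (2 * U N)) atTop (𝓝 (Real.Gamma 4 / Real.Gamma (7 / 3))) :=
    lp.comp (l2.comp hU')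
  have lV : Tendsto (fun N => p (2 * V N)) atTop (𝓝 (Real.Gamma 4 / Real.Gamma (7 / 3))) :=
    lp.comp (l2.comp hV')
  have lUV : Tendsto (fun N => p' (2 * U N + 2 * V N)) atTop (𝓝 (Real.Gamma (17 / 3) / Real.Gamma 6)) :=
    lp'.comp ((l2.comp hU').atTop_add_nonneg (fun _ => Nat.zero_le _))
  have inv : Tendsto (fun N : ℕ => (1 : ℝ) / N) atTop (𝓝 0) := tendsto_one_div_atTop_nhds_zero_nat
  have q : Tendsto (fun N : ℕ => 12 * ((U N : ℝ) / N) * ((V N : ℝ) / N) + 16 * ((U N : ℝ) / N) * (1 / N) +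
      16 * ((V N : ℝ) / N) * (1 / N) + 21 * (1 / N) * (1 / N)) atTop
      (𝓝 (12 * t * s + 16 * t * 0 + 16 * s * 0 + 21 * 0 * 0)) :=
    ((((tendsto_const_nhds.mul hU).mul hV).add ((tendsto_const_nhds.mul hU).mul inv)).add
      ((tendsto_const_nhds.mul hV).mul inv)).add ((tendsto_const_nhds.mul inv).mul inv)
  have r1 : Tendsto (fun N : ℕ => (2 * ((U N : ℝ) / N)) ^ (-(5 / 3) : ℝ)) atTop
      (𝓝 ((2 * t) ^ (-(5 / 3) : ℝ))) :=
    (tendsto_const_nhds.mul hU).rpow_const (Or.inl (by positivity))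
  have r2 : Tendsto (fun N : ℕ => (2 * ((V N : ℝ) / N)) ^ (-(5 / 3) : ℝ)) atTop
      (𝓝 ((2 * s) ^ (-(5 / 3) : ℝ))) :=
    (tendsto_const_nhds.mul hV).rpow_const (Or.inl (by positivity))
  have r3 : Tendsto (fun N : ℕ => (2 * ((U N : ℝ) / N) + 2 * ((V N : ℝ) / N)) ^ (1 / 3 : ℝ)) atTop
      (𝓝 ((2 * t + 2 * s) ^ (1 / 3 : ℝ))) :=
    ((tendsto_const_nhds.mul hU).add (tendsto_const_nhds.mul hV)).rpow_const (Or.inl (by positivity))
  have tot := ((tendsto_const_nhds (x := (2 / 231 : ℝ))).mul q).mul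
    ((((lU.mul lV).mul lUV).mul r1).mul r2 |>.mul r3)
  have e : 2 / 231 * (12 * t * s + 16 * t * 0 + 16 * s * 0 + 21 * 0 * 0) *
      (Real.Gamma 4 / Real.Gamma (7 / 3) * (Real.Gamma 4 / Real.Gamma (7 / 3)) *
        (Real.Gamma (17 / 3) / Real.Gamma 6) * (2 * t) ^ (-(5 / 3) : ℝ) * (2 * s) ^ (-(5 / 3) : ℝ) *
        (2 * t + 2 * s) ^ (1 / 3 : ℝ)) = C0 * (t * s) ^ (-(2 / 3) : ℝ) := by
    have e1 : 2 * t + 2 * s = 2 := by linarith
    rw [e1, Real.mul_rpow (by norm_num) ht.le, Real.mul_rpow (by norm_num) hs.le,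
      Real.mul_rpow ht.le hs.le]
    have e2 : t * t ^ (-(5 / 3) : ℝ) = t ^ (-(2 / 3) : ℝ) := by
      nth_rw 1 [← Real.rpow_one t]
      rw [← Real.rpow_add ht]
      norm_num
    have e3 : s * s ^ (-(5 / 3) : ℝ) = s ^ (-(2 / 3) : ℝ) := by
      nth_rw 1 [← Real.rpow_one s]
      rw [← Real.rpow_add hs]
      norm_num
    have e4 : (2 : ℝ) ^ (-(5 / 3) : ℝ) * 2 ^ (-(5 / 3) : ℝ) * 2 ^ (1 / 3 : ℝ) = 1 / 8 := by
      rw [← Real.rpow_add (by norm_num), ← Real.rpow_add (by norm_num),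
        show (-(5 / 3) + -(5 / 3) + 1 / 3 : ℝ) = -((3 : ℕ) : ℝ) by norm_num, Real.rpow_neg (by norm_num),
        Real.rpow_natCast]
      norm_num
    unfold C0
    rw [← e2, ← e3]
    linear_combination (2 / 231 * 12 * (Real.Gamma 4 / Real.Gamma (7 / 3)) ^ 2 *
      (Real.Gamma (17 / 3) / Real.Gamma 6) * (t * t ^ (-(5 / 3) : ℝ)) * (s * s ^ (-(5 / 3) : ℝ))) * e4
  rw [e] at tot
  refine tot.congr' ?_
  filter_upwards [eventually_gt_atTop 0, hU'.eventually_gt_atTop 0, hV'.eventually_gt_atTop 0]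
    with N hN hu hv
  have hN' : (0 : ℝ) < N := by exact_mod_cast hN
  have hu' : (0 : ℝ) < U N := by exact_mod_cast hu
  have hv' : (0 : ℝ) < V N := by exact_mod_cast hv
  rw [D_eq]
  simp only [hp, hp']
  push_cast
  have g1 : (2 * ((U N : ℝ) / N)) ^ (-(5 / 3) : ℝ) = (2 * (U N : ℝ)) ^ (-(5 / 3) : ℝ) * (N : ℝ) ^ (5 / 3 : ℝ) := by
    rw [← mul_div_assoc, Real.div_rpow (by positivity) hN'.le, Real.rpow_neg hN'.le, div_inv_eq_mul]
  have g2 : (2 * ((V N : ℝ) / N)) ^ (-(5 / 3) : ℝ) = (2 * (V N : ℝ)) ^ (-(5 / 3) : ℝ) * (N : ℝ) ^ (5 / 3 : ℝ) := by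
    rw [← mul_div_assoc, Real.div_rpow (by positivity) hN'.le, Real.rpow_neg hN'.le, div_inv_eq_mul]
  have g3 : (2 * ((U N : ℝ) / N) + 2 * ((V N : ℝ) / N)) ^ (1 / 3 : ℝ) =
      (2 * (U N : ℝ) + 2 * V N) ^ (1 / 3 : ℝ) * (N : ℝ) ^ (-(1 / 3) : ℝ) := by
    rw [← mul_div_assoc, ← mul_div_assoc, ← add_div, Real.div_rpow (by positivity) hN'.le,
      Real.rpow_neg hN'.le, div_eq_mul_inv]
  have k1 : (2 * (U N : ℝ)) ^ (5 / 3 : ℝ) * (2 * (U N : ℝ)) ^ (-(5 / 3) : ℝ) = 1 := by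
    rw [← Real.rpow_add (by positivity)]
    norm_num
  have k2 : (2 * (V N : ℝ)) ^ (5 / 3 : ℝ) * (2 * (V N : ℝ)) ^ (-(5 / 3) : ℝ) = 1 := by
    rw [← Real.rpow_add (by positivity)]
    norm_num
  have k3 : (2 * (U N : ℝ) + 2 * V N) ^ (-(1 / 3) : ℝ) * (2 * (U N : ℝ) + 2 * V N) ^ (1 / 3 : ℝ) = 1 := by
    rw [← Real.rpow_add (by positivity)]
    norm_num
  have k4 : (N : ℝ) ^ (5 / 3 : ℝ) * (N : ℝ) ^ (5 / 3 : ℝ) * (N : ℝ) ^ (-(1 / 3) : ℝ) = (N : ℝ) ^ 3 := by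
    rw [← Real.rpow_add hN', ← Real.rpow_add hN', ← Real.rpow_natCast]
    norm_num
  rw [g1, g2, g3]
  set A := rf (7 / 3) (2 * U N) / rf 4 (2 * U N)
  set B := rf (7 / 3) (2 * V N) / rf 4 (2 * V N)
  set G := rf 6 (2 * U N + 2 * V N) / rf (17 / 3) (2 * U N + 2 * V N)
  set X := (2 * (U N : ℝ)) ^ (5 / 3 : ℝ)
  set X' := (2 * (U N : ℝ)) ^ (-(5 / 3) : ℝ)
  set Y := (2 * (V N : ℝ)) ^ (5 / 3 : ℝ)
  set Y' := (2 * (V N : ℝ)) ^ (-(5 / 3) : ℝ)
  set Z := (2 * (U N : ℝ) + 2 * V N) ^ (-(1 / 3) : ℝ)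
  set Z' := (2 * (U N : ℝ) + 2 * V N) ^ (1 / 3 : ℝ)
  set W := (N : ℝ) ^ (5 / 3 : ℝ)
  set W' := (N : ℝ) ^ (-(1 / 3) : ℝ)
  have l1 : 2 / 231 * (12 * ((U N : ℝ) / N) * ((V N : ℝ) / N) + 16 * ((U N : ℝ) / N) * (1 / N) +
      16 * ((V N : ℝ) / N) * (1 / N) + 21 * (1 / N) * (1 / N)) =
      2 / 231 * (12 * (U N : ℝ) * V N + 16 * U N + 16 * V N + 21) / (N : ℝ) ^ 2 := by
    field_simp
  rw [l1]
  have l3 : X * A * (Y * B) * (Z * G) * (X' * W) * (Y' * W) * (Z' * W') =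
      (X * X') * (Y * Y') * (Z * Z') * (W * W * W') * (A * B * G) := by ring
  rw [l3, k1, k2, k3, k4]
  field_simp


/-! ### Sums as integrals -/

theorem floor_step (h : ℕ → ℝ) (j : ℕ) :
    IntervalIntegrable (fun s : ℝ => h ⌊s⌋₊) volume j (j + 1) ∧
      ∫ s in (j : ℝ)..(j + 1), h ⌊s⌋₊ = h j := by
  have hae : ∀ᵐ s : ℝ, s ∈ Ι (j : ℝ) (j + 1) → h ⌊s⌋₊ = h j := by
    have h1 : ∀ᵐ s : ℝ, s ≠ (j : ℝ) + 1 := by
      rw [ae_iff]
      simp
    filter_upwards [h1] with s hs hmem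
    rw [uIoc_of_le (by linarith)] at hmem
    have h2 : ⌊s⌋₊ = j := by
      rw [Nat.floor_eq_iff (by linarith [hmem.1, show (0 : ℝ) ≤ j from Nat.cast_nonneg j])]
      exact ⟨hmem.1.le, lt_of_le_of_ne hmem.2 hs⟩
    rw [h2]
  constructor
  · refine (intervalIntegrable_const (c := h j)).congr_ae ?_
    rw [Filter.EventuallyEq, ae_restrict_iff' measurableSet_uIoc]
    filter_upwards [hae] with s hs hmem
    exact (hs hmem).symm
  · rw [intervalIntegral.integral_congr_ae (g := fun _ => h j) hae]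
    simp

theorem floor_sum (h : ℕ → ℝ) (k : ℕ) :
    IntervalIntegrable (fun s : ℝ => h ⌊s⌋₊) volume 0 k ∧
      ∫ s in (0 : ℝ)..k, h ⌊s⌋₊ = ∑ j ∈ Finset.range k, h j := by
  induction k with
  | zero => simp
  | succ k ih =>
    obtain ⟨h1, h2⟩ := floor_step h k
    push_cast
    refine ⟨ih.1.trans h1, ?_⟩
    rw [← intervalIntegral.integral_add_adjacent_intervals ih.1 h1, ih.2, h2, Finset.sum_range_succ]

/-- the density at level `N` -/
noncomputable def gN (N : ℕ) (t : ℝ) : ℝ := N * D ⌊(N : ℝ) * t⌋₊ (N - 1 - ⌊(N : ℝ) * t⌋₊)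

theorem gN_meas (N : ℕ) : Measurable (gN N) := by
  unfold gN
  refine Measurable.const_mul ?_ _
  exact (measurable_from_nat (f := fun m => D m (N - 1 - m))).comp
    (Nat.measurable_floor.comp (measurable_const_mul _))

theorem sum_eq {N : ℕ} (hN : 0 < N) (k : ℕ) :
    ∑ j ∈ Finset.range k, D j (N - 1 - j) = ∫ t in (0 : ℝ)..(k / N), gN N t := by
  have hN' : (0 : ℝ) < N := by exact_mod_cast hN
  have h1 := (floor_sum (fun m => D m (N - 1 - m)) k).2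
  rw [← h1]
  have h2 := intervalIntegral.mul_integral_comp_mul_left (a := 0) (b := (k : ℝ) / N)
    (f := fun s : ℝ => D ⌊s⌋₊ (N - 1 - ⌊s⌋₊)) (c := (N : ℝ))
  rw [mul_zero, mul_div_cancel₀ _ hN'.ne'] at h2
  rw [← h2, ← intervalIntegral.integral_const_mul]
  rfl

/-- the limit density -/
noncomputable def w (t : ℝ) : ℝ := (t * (1 - t)) ^ (-(2 / 3) : ℝ)

theorem gN_bound : ∃ K : ℝ, 0 < K ∧ ∀ N : ℕ, ∀ t : ℝ, 0 < t → t < 1 → |gN N t| ≤ K * w t := by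
  obtain ⟨K, hK, h⟩ := D_bound
  refine ⟨K, hK, fun N t ht0 ht1 => ?_⟩
  rcases Nat.eq_zero_or_pos N with rfl | hN
  · unfold gN w
    have : 0 ≤ (t * (1 - t)) ^ (-(2 / 3) : ℝ) := Real.rpow_nonneg (mul_nonneg ht0.le (by linarith)) _
    simp
    positivity
  have hN' : (0 : ℝ) < N := by exact_mod_cast hN
  unfold gN w
  rw [abs_of_nonneg (mul_nonneg hN'.le (D_nonneg _ _))]
  set u := ⌊(N : ℝ) * t⌋₊ with hu
  have hNt : (0 : ℝ) ≤ N * t := by positivity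
  have hlt : u < N := by
    have h1 : ((u : ℕ) : ℝ) ≤ N * t := Nat.floor_le hNt
    have h2 : (N : ℝ) * t < N := by nlinarith
    exact_mod_cast lt_of_le_of_lt h1 h2
  set v := N - 1 - u with hv
  have huv : u + v + 1 = N := by omega
  have huv' : (u : ℝ) + v + 1 = N := by exact_mod_cast huv
  have h1 : (N : ℝ) * t < u + 1 := Nat.lt_floor_add_one _
  have h2 : ((u : ℕ) : ℝ) ≤ N * t := Nat.floor_le hNt
  have h3 : (N : ℝ) * (1 - t) ≤ v + 1 := by nlinarith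
  have ht1' : 0 < 1 - t := by linarith
  have e1 : ((u : ℝ) + 1) ^ (-(2 / 3) : ℝ) ≤ (N * t) ^ (-(2 / 3) : ℝ) :=
    Real.rpow_le_rpow_of_nonpos (by positivity) h1.le (by norm_num)
  have e2 : ((v : ℝ) + 1) ^ (-(2 / 3) : ℝ) ≤ (N * (1 - t)) ^ (-(2 / 3) : ℝ) :=
    Real.rpow_le_rpow_of_nonpos (by positivity) h3 (by norm_num)
  calc (N : ℝ) * D u v ≤ N * (K * (((u : ℝ) + 1) ^ (-(2 / 3) : ℝ) * ((v : ℝ) + 1) ^ (-(2 / 3) : ℝ) *
        ((u : ℝ) + v + 1) ^ (1 / 3 : ℝ))) := mul_le_mul_of_nonneg_left (h u v) hN'.le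
    _ ≤ N * (K * ((N * t) ^ (-(2 / 3) : ℝ) * (N * (1 - t)) ^ (-(2 / 3) : ℝ) * (N : ℝ) ^ (1 / 3 : ℝ))) := by
        rw [huv']
        refine mul_le_mul_of_nonneg_left (mul_le_mul_of_nonneg_left ?_ hK.le) hN'.le
        refine mul_le_mul_of_nonneg_right ?_ (Real.rpow_nonneg hN'.le _)
        exact mul_le_mul e1 e2 (Real.rpow_nonneg (by positivity) _) (Real.rpow_nonneg (by positivity) _)
    _ = K * (t * (1 - t)) ^ (-(2 / 3) : ℝ) * ((N : ℝ) ^ (1 : ℝ) * (N : ℝ) ^ (-(2 / 3) : ℝ) *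
          (N : ℝ) ^ (-(2 / 3) : ℝ) * (N : ℝ) ^ (1 / 3 : ℝ)) := by
        rw [Real.mul_rpow hN'.le ht0.le, Real.mul_rpow hN'.le ht1'.le, Real.mul_rpow ht0.le ht1'.le,
          Real.rpow_one]
        ring
    _ = K * (t * (1 - t)) ^ (-(2 / 3) : ℝ) := by
        rw [← Real.rpow_add hN', ← Real.rpow_add hN', ← Real.rpow_add hN']
        norm_num

theorem gN_lim {t : ℝ} (ht0 : 0 < t) (ht1 : t < 1) : Tendsto (fun N => gN N t) atTop (𝓝 (C0 * w t)) := by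
  have hU : Tendsto (fun N : ℕ => ((⌊(N : ℝ) * t⌋₊ : ℕ) : ℝ) / N) atTop (𝓝 t) := by
    have h := (tendsto_nat_floor_mul_div_atTop ht0.le).comp (tendsto_natCast_atTop_atTop (R := ℝ))
    refine h.congr fun N => ?_
    simp only [Function.comp_apply]
    rw [mul_comm t]
  have hV : Tendsto (fun N : ℕ => ((N - 1 - ⌊(N : ℝ) * t⌋₊ : ℕ) : ℝ) / N) atTop (𝓝 (1 - t)) := by
    have inv : Tendsto (fun N : ℕ => (1 : ℝ) / N) atTop (𝓝 0) := tendsto_one_div_atTop_nhds_zero_nat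
    have h : Tendsto (fun N : ℕ => 1 - 1 / (N : ℝ) - ((⌊(N : ℝ) * t⌋₊ : ℕ) : ℝ) / N) atTop (𝓝 (1 - 0 - t)) :=
      (tendsto_const_nhds.sub inv).sub hU
    rw [sub_zero] at h
    refine h.congr' ?_
    filter_upwards [eventually_gt_atTop 0] with N hN
    have hN' : (0 : ℝ) < N := by exact_mod_cast hN
    have h1 : ((⌊(N : ℝ) * t⌋₊ : ℕ) : ℝ) ≤ N * t := Nat.floor_le (by positivity)
    have h2 : (N : ℝ) * t < N := by nlinarith
    have hlt : ⌊(N : ℝ) * t⌋₊ < N := by exact_mod_cast lt_of_le_of_lt h1 h2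
    have h3 : N - 1 - ⌊(N : ℝ) * t⌋₊ + 1 + ⌊(N : ℝ) * t⌋₊ = N := by omega
    have h4 : ((N - 1 - ⌊(N : ℝ) * t⌋₊ : ℕ) : ℝ) + 1 + ((⌊(N : ℝ) * t⌋₊ : ℕ) : ℝ) = N := by exact_mod_cast h3
    have h5 : ((N - 1 - ⌊(N : ℝ) * t⌋₊ : ℕ) : ℝ) = N - 1 - ((⌊(N : ℝ) * t⌋₊ : ℕ) : ℝ) := by linarith
    rw [h5]
    field_simp
  exact D_lim ht0 (by linarith) (by ring) hU hV


/-! ### Integrability and value of the Beta integral -/

theorem w_eq {t : ℝ} (ht0 : 0 < t) (ht1 : t < 1) :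
    w t = t ^ ((1 / 3 : ℝ) - 1) * (1 - t) ^ ((1 / 3 : ℝ) - 1) := by
  unfold w
  rw [Real.mul_rpow ht0.le (by linarith)]
  norm_num

theorem w_cast {t : ℝ} (ht0 : 0 < t) (ht1 : t < 1) :
    ((w t : ℝ) : ℂ) = (t : ℂ) ^ (((1 / 3 : ℝ) : ℂ) - 1) * (1 - (t : ℂ)) ^ (((1 / 3 : ℝ) : ℂ) - 1) := by
  rw [w_eq ht0 ht1, Complex.ofReal_mul, Complex.ofReal_cpow ht0.le, Complex.ofReal_cpow (by linarith)]
  push_cast
  rfl

theorem w_int : IntervalIntegrable w volume 0 1 := by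
  have h := Complex.betaIntegral_convergent (u := ((1 / 3 : ℝ) : ℂ)) (v := ((1 / 3 : ℝ) : ℂ))
    (by rw [Complex.ofReal_re]; norm_num) (by rw [Complex.ofReal_re]; norm_num)
  have h2 : IntervalIntegrable (fun t : ℝ => ((w t : ℝ) : ℂ)) volume 0 1 := by
    refine h.congr_ae ?_
    rw [Filter.EventuallyEq, ae_restrict_iff' measurableSet_uIoc]
    have h1 : ∀ᵐ s : ℝ, s ≠ 1 := by
      rw [ae_iff]
      simp
    filter_upwards [h1] with s hs hmem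
    rw [uIoc_of_le zero_le_one] at hmem
    exact (w_cast hmem.1 (lt_of_le_of_ne hmem.2 hs)).symm
  have h3 := h2.norm
  refine h3.congr_ae ?_
  rw [Filter.EventuallyEq, ae_restrict_iff' measurableSet_uIoc]
  filter_upwards with s hmem
  rw [uIoc_of_le zero_le_one] at hmem
  rw [Complex.norm_real, Real.norm_of_nonneg]
  exact Real.rpow_nonneg (mul_nonneg hmem.1.le (by linarith [hmem.2])) _

theorem w_total : ∫ t in (0 : ℝ)..1, w t = Real.Gamma (1 / 3) ^ 2 / Real.Gamma (2 / 3) := by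
  have h := Complex.betaIntegral_eq_Gamma_mul_div ((1 / 3 : ℝ) : ℂ) ((1 / 3 : ℝ) : ℂ)
    (by rw [Complex.ofReal_re]; norm_num) (by rw [Complex.ofReal_re]; norm_num)
  have h2 : ((∫ t in (0 : ℝ)..1, w t : ℝ) : ℂ) = Complex.betaIntegral ((1 / 3 : ℝ) : ℂ) ((1 / 3 : ℝ) : ℂ) := by
    rw [← intervalIntegral.integral_ofReal]
    unfold Complex.betaIntegral
    refine intervalIntegral.integral_congr_ae ?_
    have h1 : ∀ᵐ s : ℝ, s ≠ 1 := by
      rw [ae_iff]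
      simp
    filter_upwards [h1] with s hs hmem
    rw [uIoc_of_le zero_le_one] at hmem
    exact w_cast hmem.1 (lt_of_le_of_ne hmem.2 hs)
  rw [h, ← Complex.ofReal_add, Complex.Gamma_ofReal, Complex.Gamma_ofReal] at h2
  have h3 : (∫ t in (0 : ℝ)..1, w t) = Real.Gamma (1 / 3) * Real.Gamma (1 / 3) / Real.Gamma (1 / 3 + 1 / 3) := by
    exact_mod_cast h2
  rw [h3]
  norm_num
  ring

theorem C0_total : C0 * ∫ t in (0 : ℝ)..1, w t = 1 := by
  rw [w_total]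
  have g4 : Real.Gamma 4 = 6 := by
    rw [show (4 : ℝ) = ((3 : ℕ) : ℝ) + 1 by norm_num, Real.Gamma_nat_eq_factorial]
    norm_num [Nat.factorial]
  have g6 : Real.Gamma 6 = 120 := by
    rw [show (6 : ℝ) = ((5 : ℕ) : ℝ) + 1 by norm_num, Real.Gamma_nat_eq_factorial]
    norm_num [Nat.factorial]
  have g73 : Real.Gamma (7 / 3) = 4 / 9 * Real.Gamma (1 / 3) := by
    rw [show (7 / 3 : ℝ) = 4 / 3 + 1 by norm_num, Real.Gamma_add_one (by norm_num),
      show (4 / 3 : ℝ) = 1 / 3 + 1 by norm_num, Real.Gamma_add_one (by norm_num)]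
    ring
  have g173 : Real.Gamma (17 / 3) = 12320 / 243 * Real.Gamma (2 / 3) := by
    rw [show (17 / 3 : ℝ) = 14 / 3 + 1 by norm_num, Real.Gamma_add_one (by norm_num),
      show (14 / 3 : ℝ) = 11 / 3 + 1 by norm_num, Real.Gamma_add_one (by norm_num),
      show (11 / 3 : ℝ) = 8 / 3 + 1 by norm_num, Real.Gamma_add_one (by norm_num),
      show (8 / 3 : ℝ) = 5 / 3 + 1 by norm_num, Real.Gamma_add_one (by norm_num),
      show (5 / 3 : ℝ) = 2 / 3 + 1 by norm_num, Real.Gamma_add_one (by norm_num)]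
    ring
  have p1 : 0 < Real.Gamma (1 / 3) := Real.Gamma_pos_of_pos (by norm_num)
  have p2 : 0 < Real.Gamma (2 / 3) := Real.Gamma_pos_of_pos (by norm_num)
  unfold C0
  rw [g4, g6, g73, g173]
  field_simp
  norm_num


/-! ### The limit theorem -/

theorem tele {f : ℕ → ℕ → ℝ} (hD : ∀ u v, f (u + 1) v - f u (v + 1) = D u v) (N : ℕ) :
    ∀ k, k ≤ N → f k (N - k) = f 0 N + ∑ j ∈ Finset.range k, D j (N - 1 - j) := by
  intro k
  induction k with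
  | zero => intro _; simp
  | succ k ih =>
    intro hk
    have h1 := ih (by omega)
    have h2 := hD k (N - (k + 1))
    rw [show N - (k + 1) + 1 = N - k by omega] at h2
    rw [Finset.sum_range_succ, ← add_assoc, ← h1, show N - 1 - k = N - (k + 1) by omega]
    linarith

theorem int_lim {ι : Type*} {l : Filter ι} [l.IsCountablyGenerated] {N : ι → ℕ} {c : ι → ℝ} {a : ℝ}
    (hN : Tendsto N l atTop) (hc : Tendsto c l (𝓝 a)) (hc0 : ∀ᶠ i in l, 0 ≤ c i) (hc1 : ∀ᶠ i in l, c i ≤ 1)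
    (ha0 : 0 ≤ a) (ha1 : a ≤ 1) :
    Tendsto (fun i => ∫ t in (0 : ℝ)..(c i), gN (N i) t) l (𝓝 (C0 * ∫ t in (0 : ℝ)..a, w t)) := by
  obtain ⟨K, hK, hb⟩ := gN_bound
  have e : C0 * ∫ t in (0 : ℝ)..a, w t = ∫ t in (0 : ℝ)..1, indicator {x | x ≤ a} (fun t => C0 * w t) t := by
    rw [intervalIntegral.integral_indicator ⟨ha0, ha1⟩, intervalIntegral.integral_const_mul]
  rw [e]
  have key : Tendsto (fun i => ∫ t in (0 : ℝ)..1, indicator {x | x ≤ c i} (gN (N i)) t) l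
      (𝓝 (∫ t in (0 : ℝ)..1, indicator {x | x ≤ a} (fun t => C0 * w t) t)) := by
    refine intervalIntegral.tendsto_integral_filter_of_dominated_convergence (fun t => K * w t) ?_ ?_
      (w_int.const_mul K) ?_
    · filter_upwards with i
      exact ((gN_meas (N i)).indicator measurableSet_Iic).aestronglyMeasurable
    · filter_upwards with i
      have h1 : ∀ᵐ s : ℝ, s ≠ 1 := by
        rw [ae_iff]
        simp
      filter_upwards [h1] with s hs hmem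
      rw [uIoc_of_le zero_le_one] at hmem
      have hs1 : s < 1 := lt_of_le_of_ne hmem.2 hs
      have hw : 0 ≤ K * w s := le_trans (abs_nonneg _) (hb 0 s hmem.1 hs1)
      rw [Real.norm_eq_abs]
      by_cases h : s ≤ c i
      · rw [indicator_of_mem (show s ∈ {x | x ≤ c i} from h)]
        exact hb (N i) s hmem.1 hs1
      · rw [indicator_of_notMem (show s ∉ {x | x ≤ c i} from h), abs_zero]
        exact hw
    · have h1 : ∀ᵐ s : ℝ, s ≠ 1 := by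
        rw [ae_iff]
        simp
      have h2 : ∀ᵐ s : ℝ, s ≠ a := by
        rw [ae_iff]
        simp
      filter_upwards [h1, h2] with s hs hsa hmem
      rw [uIoc_of_le zero_le_one] at hmem
      have hs1 : s < 1 := lt_of_le_of_ne hmem.2 hs
      rcases lt_or_gt_of_ne hsa with h | h
      · rw [indicator_of_mem (show s ∈ {x | x ≤ a} from h.le)]
        refine ((gN_lim hmem.1 hs1).comp hN).congr' ?_
        filter_upwards [hc.eventually (lt_mem_nhds h)] with i hi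
        rw [indicator_of_mem (show s ∈ {x | x ≤ c i} from hi.le)]
        rfl
      · rw [indicator_of_notMem (show s ∉ {x | x ≤ a} from not_le.2 h)]
        refine tendsto_const_nhds.congr' ?_
        filter_upwards [hc.eventually (gt_mem_nhds h)] with i hi
        rw [indicator_of_notMem (show s ∉ {x | x ≤ c i} from not_le.2 hi)]
  refine key.congr' ?_
  filter_upwards [hc0, hc1] with i h0 h1
  rw [intervalIntegral.integral_indicator ⟨h0, h1⟩]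

/-- **Limit theorem.**  If `f u v + f v u = 1` and `f (u+1) v - f u (v+1) = D u v`, then
`f u v → (∫_0^a (t(1-t))^(-2/3) dt) / (∫_0^1 (t(1-t))^(-2/3) dt)` when `u + v → ∞` and `u/(u+v) → a`. -/
theorem cardy_limit {f : ℕ → ℕ → ℝ} (hs : ∀ u v, f u v + f v u = 1)
    (hD : ∀ u v, f (u + 1) v - f u (v + 1) = D u v)
    {ι : Type*} {l : Filter ι} [l.IsCountablyGenerated] {u v : ι → ℕ} {a : ℝ}
    (hN : Tendsto (fun i => u i + v i) l atTop)
    (ha : Tendsto (fun i => (u i : ℝ) / (u i + v i)) l (𝓝 a)) :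
    Tendsto (fun i => f (u i) (v i)) l
      (𝓝 ((∫ t in (0 : ℝ)..a, (t * (1 - t)) ^ (-(2 / 3) : ℝ)) /
        ∫ t in (0 : ℝ)..1, (t * (1 - t)) ^ (-(2 / 3) : ℝ))) := by
  rcases l.eq_or_neBot with rfl | hl
  · simp
  have hc0 : ∀ᶠ i in l, 0 ≤ (u i : ℝ) / (u i + v i) := by
    filter_upwards with i
    positivity
  have hc1 : ∀ᶠ i in l, (u i : ℝ) / (u i + v i) ≤ 1 := by
    filter_upwards with i
    exact div_le_one_of_le₀ (by linarith [show (0 : ℝ) ≤ v i from Nat.cast_nonneg _]) (by positivity)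
  have ha0 : 0 ≤ a := ge_of_tendsto ha hc0
  have ha1 : a ≤ 1 := le_of_tendsto ha hc1
  have h1 := int_lim hN ha hc0 hc1 ha0 ha1
  have h2 : Tendsto (fun i => ∫ t in (0 : ℝ)..1, gN (u i + v i) t) l (𝓝 (C0 * ∫ t in (0 : ℝ)..1, w t)) :=
    int_lim hN tendsto_const_nhds (by filter_upwards with i; norm_num) (by filter_upwards with i; norm_num)
      zero_le_one le_rfl
  rw [C0_total] at h2
  have h3 : Tendsto (fun i => (1 - ∫ t in (0 : ℝ)..1, gN (u i + v i) t) / 2) l (𝓝 ((1 - 1) / 2)) :=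
    (tendsto_const_nhds.sub h2).div_const 2
  have h4 := h3.add h1
  have hw : (∫ t in (0 : ℝ)..1, (t * (1 - t)) ^ (-(2 / 3) : ℝ)) = ∫ t in (0 : ℝ)..1, w t := rfl
  have hwa : (∫ t in (0 : ℝ)..a, (t * (1 - t)) ^ (-(2 / 3) : ℝ)) = ∫ t in (0 : ℝ)..a, w t := rfl
  have hne : (∫ t in (0 : ℝ)..1, w t) ≠ 0 := by
    intro h0
    have := C0_total
    rw [h0, mul_zero] at this
    exact zero_ne_one this
  have e : (∫ t in (0 : ℝ)..a, (t * (1 - t)) ^ (-(2 / 3) : ℝ)) /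
      (∫ t in (0 : ℝ)..1, (t * (1 - t)) ^ (-(2 / 3) : ℝ)) = (1 - 1) / 2 + C0 * ∫ t in (0 : ℝ)..a, w t := by
    rw [hw, hwa, eq_div_of_mul_eq hne C0_total]
    ring
  rw [e]
  refine h4.congr' ?_
  filter_upwards [hN.eventually_gt_atTop 0] with i hi
  have t1 := tele hD (u i + v i) (u i) (by omega)
  have t2 := tele hD (u i + v i) (u i + v i) le_rfl
  rw [sum_eq hi] at t1 t2
  rw [Nat.add_sub_cancel_left] at t1
  rw [Nat.sub_self] at t2
  have hne2 : ((u i + v i : ℕ) : ℝ) ≠ 0 := by exact_mod_cast hi.ne'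
  rw [div_self hne2] at t2
  have t3 := hs (u i + v i) 0
  push_cast at t1
  rw [t1]
  linarith

end Pool.Agent.Helper25.Cardy
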